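import Pool.Agent.H.MP_c2c9d7_co.M

namespace Pool.Agent.Results.MP_c2c9d7_co.Rect

open Pool.Agent.H.MP_c2c9d7_co Complex

theorem result : ∃ f : ℂ → ℝ, Continuous f ∧ (∀ z, 0 ≤ f z) ∧
    (∀ z, z ∉ Metric.closedBall (0 : ℂ) 1 → f z = 0) ∧
    ∀ φ : ℂ → ℂ, Isometry φ → φ (3 / 10 + 3 / 5 * I) ∈ Metric.closedBall (0 : ℂ) 1 →
      ¬ ∃ c : ℝ, f (φ 0) = c ∧ f (φ (3 / 5)) = c ∧ f (φ (3 / 5 + 6 / 5 * I)) = c ∧
        f (φ (6 / 5 * I)) = c := by
  refine ⟨fun z => ff (40960 * z.re + 81920) (40960 * z.im + 81920), ?_, ?_, ?_, ?_⟩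
  · exact ff_cont.comp (f := fun z : ℂ => (40960 * z.re + 81920, 40960 * z.im + 81920))
      (by fun_prop)
  · intro z; simp only [ff]; split_ifs
    · exact le_max_left _ _
    · exact le_rfl
  · intro z hz
    simp only [ff]
    refine if_neg fun q => hz ?_
    rw [mem_closedBall_zero_iff, ← sq_le_one_iff₀ (norm_nonneg _), Complex.sq_norm, normSq_apply]
    linarith
  · rintro φ hφ hc ⟨c, g0, g1, g2, g3⟩
    rw [mem_closedBall_zero_iff, ← sq_le_one_iff₀ (norm_nonneg _), Complex.sq_norm,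
      normSq_apply] at hc
    have d (z w : ℂ) : ((φ z).re - (φ w).re) ^ 2 + ((φ z).im - (φ w).im) ^ 2
        = (z.re - w.re) ^ 2 + (z.im - w.im) ^ 2 := by
      have := congrArg (· ^ 2) (hφ.dist_eq z w)
      simp only [Complex.dist_eq, Complex.sq_norm, normSq_apply, sub_re, sub_im] at this
      linarith
    have d0 := d 0 (3 / 10 + 3 / 5 * I)
    have d1 := d (3 / 5) (3 / 10 + 3 / 5 * I)
    have d2 := d (3 / 5 + 6 / 5 * I) (3 / 10 + 3 / 5 * I)
    have d3 := d (6 / 5 * I) (3 / 10 + 3 / 5 * I)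
    have d02 := d 0 (3 / 5 + 6 / 5 * I)
    have d13 := d (3 / 5) (6 / 5 * I)
    have d01 := d 0 (3 / 5)
    generalize φ 0 = P0 at *
    generalize φ (3 / 5) = P1 at *
    generalize φ (3 / 5 + 6 / 5 * I) = P2 at *
    generalize φ (6 / 5 * I) = P3 at *
    generalize φ (3 / 10 + 3 / 5 * I) = C at *
    clear d hφ
    norm_num at d0 d1 d2 d3 d02 d13 d01
    simp only at g0 g1 g2 g3
    generalize P0.re = x0, P0.im = y0, P1.re = x1, P1.im = y1, P2.re = x2, P2.im = y2,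
      P3.re = x3, P3.im = y3, C.re = x, C.im = y at *
    obtain ⟨a1, a2⟩ := sq0 (a := x0 + x2 - 2 * x) (b := y0 + y2 - 2 * y) (by linarith)
    obtain ⟨a3, a4⟩ := sq0 (a := x1 + x3 - 2 * x) (b := y1 + y3 - 2 * y) (by linarith)
    obtain ⟨u, rfl⟩ : ∃ u, x1 = x0 + 2 * u := ⟨(x1 - x0) / 2, by ring⟩
    obtain ⟨w, rfl⟩ : ∃ w, y1 = y0 + 2 * w := ⟨(y1 - y0) / 2, by ring⟩
    obtain ⟨p, rfl⟩ : ∃ p, x0 = x - u - p := ⟨x - u - x0, by ring⟩
    obtain ⟨q, rfl⟩ : ∃ q, y0 = y - w - q := ⟨y - w - y0, by ring⟩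
    obtain rfl : x2 = x + u + p := by linarith
    obtain rfl : y2 = y + w + q := by linarith
    obtain rfl : x3 = x - u + p := by linarith
    obtain rfl : y3 = y - w + q := by linarith
    have e1 : u ^ 2 + w ^ 2 = 9 / 100 := by linarith
    have e2 : u * p + w * q = 0 := by linarith
    have e3 : p ^ 2 + q ^ 2 = 36 / 100 := by linarith
    have e4 : (u * q - w * p - 18 / 100) * (u * q - w * p + 18 / 100) = 0 := by
      have : (u * q - w * p) ^ 2 = (u ^ 2 + w ^ 2) * (p ^ 2 + q ^ 2) - (u * p + w * q) ^ 2 := by ring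
      rw [e1, e2, e3] at this; linarith
    refine main (40960 * x + 81920) (40960 * y + 81920) (40960 * u) (40960 * w) (by linarith)
      (by linarith) ?_
    rcases mul_eq_zero.1 e4 with e | e
    · obtain ⟨b1, b2⟩ := sq0 (a := p + 2 * w) (b := q - 2 * u) (by linarith)
      obtain rfl : p = -(2 * w) := by linarith
      obtain rfl : q = 2 * u := by linarith
      ring_nf at g0 g1 g2 g3 ⊢
      exact ⟨by linarith, by linarith, by linarith⟩
    · obtain ⟨b1, b2⟩ := sq0 (a := p - 2 * w) (b := q + 2 * u) (by linarith)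
      obtain rfl : p = 2 * w := by linarith
      obtain rfl : q = -(2 * u) := by linarith
      ring_nf at g0 g1 g2 g3 ⊢
      exact ⟨by linarith, by linarith, by linarith⟩

end Pool.Agent.Results.MP_c2c9d7_co.Rect
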